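import Pool.Agent.Lib.MP_b6048d_co.F.AsmG
import Pool.Agent.Lib.MP_b6048d_co.F.AsmE

/-!
# MP_b6048d_co: the cycle lengths of a graph of infinite chromatic number have upper logarithmic density one
-/

set_option autoImplicit false

open Filter

universe u

namespace Pool.Agent.Results.MP_b6048d_co.InfiniteChromatic

open Pool.Agent.Lib.MP_b6048d_co

/-- The set of the lengths of the cycles of `G`. -/
def cycleLengths {V : Type u} (G : SimpleGraph V) : Set ℕ :=
  {n | ∃ (v : V) (p : G.Walk v v), p.IsCycle ∧ p.length = n}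

open Classical in
/-- The sum of `1 / m` over the cycle lengths `m < N` of `G`. -/
noncomputable def recipSum {V : Type u} (G : SimpleGraph V) (N : ℕ) : ℝ :=
  ∑ m ∈ (Finset.range N).filter (fun m => m ∈ cycleLengths G), (1 : ℝ) / (m : ℝ)

/-- `δ(G)`, the upper logarithmic density of the set of the cycle lengths of `G`. -/
noncomputable def delta {V : Type u} (G : SimpleGraph V) : ℝ :=
  limsup (fun N : ℕ => recipSum G N / Real.log (N : ℝ)) atTop

section

variable {V : Type u}

theorem recipSum_nonneg (G : SimpleGraph V) (N : ℕ) : 0 ≤ recipSum G N :=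
  Finset.sum_nonneg fun _ _ => by positivity

theorem recipSum_le (G : SimpleGraph V) (n : ℕ) :
    recipSum G (n + 1) ≤ 1 + Real.log ((n + 1 : ℕ) : ℝ) := by
  have h1 : recipSum G (n + 1) ≤ ∑ m ∈ Finset.range (n + 1), (1 : ℝ) / (m : ℝ) := by
    classical
    exact Finset.sum_le_sum_of_subset_of_nonneg (Finset.filter_subset _ _)
      fun _ _ _ => by positivity
  refine h1.trans ?_
  rw [sum_range_inv]
  refine (harmonic_le_one_add_log n).trans ?_
  rcases Nat.eq_zero_or_pos n with rfl | hn
  · simp
  · have : Real.log (n : ℝ) ≤ Real.log ((n + 1 : ℕ) : ℝ) :=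
      Real.log_le_log (by exact_mod_cast hn) (by push_cast; linarith)
    linarith

theorem quot_le (G : SimpleGraph V) :
    ∀ᶠ N : ℕ in atTop, recipSum G N / Real.log (N : ℝ) ≤ 1 / Real.log (N : ℝ) + 1 := by
  filter_upwards [eventually_ge_atTop 3] with N hN
  have hlog := F.LogMissAux.log_pos' hN
  obtain ⟨n, rfl⟩ : ∃ n, N = n + 1 := ⟨N - 1, by omega⟩
  rw [div_le_iff₀ hlog]
  have := recipSum_le G n
  have h2 : (1 / Real.log ((n + 1 : ℕ) : ℝ) + 1) * Real.log ((n + 1 : ℕ) : ℝ) =
      1 + Real.log ((n + 1 : ℕ) : ℝ) := by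
    field_simp
  linarith

theorem quot_nonneg (G : SimpleGraph V) (N : ℕ) : 0 ≤ recipSum G N / Real.log (N : ℝ) :=
  div_nonneg (recipSum_nonneg G N) (Real.log_natCast_nonneg N)

theorem bdd (G : SimpleGraph V) :
    IsBoundedUnder (· ≤ ·) atTop (fun N : ℕ => recipSum G N / Real.log (N : ℝ)) :=
  F.LogMissAux.tend.isBoundedUnder_le.mono_le (quot_le G)

theorem cobdd (G : SimpleGraph V) :
    IsCoboundedUnder (· ≤ ·) atTop (fun N : ℕ => recipSum G N / Real.log (N : ℝ)) :=
  (isBoundedUnder_of_eventually_ge
    (Eventually.of_forall fun N => quot_nonneg G N)).isCoboundedUnder_le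

theorem delta_le_one (G : SimpleGraph V) : delta G ≤ 1 := by
  calc delta G ≤ limsup (fun N : ℕ => 1 / Real.log (N : ℝ) + 1) atTop :=
        limsup_le_limsup (quot_le G) (cobdd G) F.LogMissAux.tend.isBoundedUnder_le
    _ = 1 := F.LogMissAux.tend.limsup_eq

/-- For a graph with countably many vertices in the universe `0` this is the assembled theorem. -/
theorem le_delta_of_map {W : Type} (H : SimpleGraph W) (G : SimpleGraph V) (g : W → V)
    (hg : Function.Injective g) (hadj : ∀ x y, H.Adj x y → G.Adj (g x) (g y))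
    (hH : ∀ k : ℕ, ¬ H.Colorable k) : 1 ≤ delta G := by
  have htop : H.chromaticNumber = ⊤ := by
    by_contra hne
    obtain ⟨n, hn⟩ := SimpleGraph.chromaticNumber_ne_top_iff_exists.1 hne
    exact hH n hn
  have h1 := F.final_of_color F.colorThm' W H htop
  rw [← h1]
  refine limsup_le_limsup (Eventually.of_forall fun N => ?_) (F.LogMissAux.cobdd H) (bdd G)
  change (1 / Real.log (N : ℝ)) * ∑ m ∈ Finset.range N,
      (F.LogMissAux.cyc H).indicator (fun k : ℕ => (1 : ℝ) / (k : ℝ)) m ≤
    recipSum G N / Real.log (N : ℝ)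
  rw [one_div, inv_mul_eq_div]
  refine div_le_div_of_nonneg_right ?_ (Real.log_natCast_nonneg N)
  classical
  rw [recipSum, Finset.sum_filter]
  refine Finset.sum_le_sum fun m _ => ?_
  by_cases hm : m ∈ F.LogMissAux.cyc H
  · have hm' : m ∈ cycleLengths G := by
      obtain ⟨v, p, hp, hl⟩ := hm
      let φ : H →g G := ⟨g, fun {x y} h => hadj x y h⟩
      refine ⟨g v, p.map φ, (SimpleGraph.Walk.isCycle_map_iff_of_injective hg).2 hp, ?_⟩
      rw [SimpleGraph.Walk.length_map, hl]
    rw [Set.indicator_of_mem hm, if_pos hm']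
  · rw [Set.indicator_of_notMem hm]
    split_ifs
    · positivity
    · exact le_rfl

/-- A graph which is not finitely colourable has, for every `k`, a finite subgraph which is not
`k`-colourable (de Bruijn, Erdős). -/
theorem exists_finite (G : SimpleGraph V) (k : ℕ) (hk : ¬ G.Colorable k) :
    ∃ G' : G.Subgraph, G'.verts.Finite ∧ ¬ G'.coe.Colorable k := by
  by_contra hcon
  push Not at hcon
  exact hk (SimpleGraph.nonempty_hom_of_forall_finite_subgraph_hom
    fun G' hG' => (hcon G' hG').some)

end

/-- **The cycle lengths of a graph of infinite chromatic number have upper logarithmic density one.**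
Let `G` be a graph which has no proper colouring with finitely many colours. Then
`limsup (1 / log N) ∑_{m < N, m a cycle length of G} 1 / m = 1`. -/
theorem result {V : Type u} (G : SimpleGraph V) (hG : ∀ k : ℕ, ¬ G.Colorable k) :
    delta G = 1 := by
  refine le_antisymm (delta_le_one G) ?_
  choose G' hfin hcol using fun k => exists_finite G k (hG k)
  let S : Set V := ⋃ k, (G' k).verts
  have hS : S.Countable := Set.countable_iUnion fun k => (hfin k).countable
  have : Countable S := hS.to_subtype
  obtain ⟨f, hf⟩ := exists_injective_nat S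
  let e : S ≃ Set.range f := Equiv.ofInjective f hf
  let g : Set.range f → V := fun t => (e.symm t : S)
  have hg : Function.Injective g := Subtype.val_injective.comp e.symm.injective
  refine le_delta_of_map (G.comap g) G g hg (fun x y h => h) fun k hk => hcol k ?_
  obtain ⟨c⟩ := hk
  have hmem : ∀ x : (G' k).verts, (x : V) ∈ S := fun x => Set.mem_iUnion.2 ⟨k, x.2⟩
  refine ⟨SimpleGraph.Coloring.mk (fun x => c (e ⟨x, hmem x⟩)) ?_⟩
  intro x y hxy
  refine c.valid ?_
  change G.Adj (g (e ⟨x, hmem x⟩)) (g (e ⟨y, hmem y⟩))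
  have hgx : ∀ z : (G' k).verts, g (e ⟨z, hmem z⟩) = z := fun z => by
    change ((e.symm (e ⟨z, hmem z⟩) : S) : V) = z
    rw [e.symm_apply_apply]
  rw [hgx, hgx]
  exact (G' k).adj_sub hxy

end Pool.Agent.Results.MP_b6048d_co.InfiniteChromatic
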